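import Pool.Agent.Helper19.RD.Stmts8

set_option autoImplicit false

namespace Pool.Agent.Helper30.RD8

open Finset Pool.Agent.Helper18.RD Pool.Agent.Helper19.RD

theorem st_NPB (hAR : ST_ARN) (hBAD : ST_BADN) (hGT : ST_GT6) (hM : ST_MLW6) (hE : ST_END2)
    (hPL : ST_PL2) : ST_NPB := by
  classical
  obtain ⟨c0', C1, hc0', hC1, hPL⟩ := hPL
  obtain ⟨C2, hC2, hB⟩ := hBAD 20 (20 + 20) (by norm_num)
  obtain ⟨C3, hC3, hM⟩ := hM 20 (by norm_num)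
  obtain ⟨C4, hC4, hE⟩ := hE
  obtain ⟨c0, hc0, hc01, hc0le⟩ : ∃ c0 : ℝ, 0 < c0 ∧ c0 ≤ 1 ∧ c0 ≤ c0' :=
    ⟨min c0' 1, by positivity, min_le_right _ _, min_le_left _ _⟩
  obtain ⟨A, hA⟩ : ∃ A : ℝ, A = (1 + C2 + C3 * (C4 + 1)) * (1 / c0) ^ 40 * 2 := ⟨_, rfl⟩
  have hA0 : 0 < A := by rw [hA]; positivity
  obtain ⟨N0, hN0⟩ : ∃ N0 : ℕ, ∀ N : ℕ, N0 ≤ N →
      A * (1 + Real.log N) ^ (40 : ℕ) ≤ (N : ℝ) ^ (1 / 20 : ℝ) := by
    have h2 : (fun x : ℝ => (1 + Real.log x) ^ (40 : ℕ)) =o[Filter.atTop]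
        (fun x : ℝ => x ^ (1 / 20 : ℝ)) := by
      have h1 : (fun x : ℝ => 1 + Real.log x) =o[Filter.atTop]
          (fun x : ℝ => x ^ (1 / 800 : ℝ)) := by
        apply Asymptotics.IsLittleO.add
        · rw [Asymptotics.isLittleO_const_left]
          right
          exact tendsto_norm_atTop_atTop.comp (tendsto_rpow_atTop (by norm_num))
        · exact isLittleO_log_rpow_atTop (by norm_num)
      have h3 := h1.pow (n := 40) (by norm_num)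
      refine h3.congr' (Filter.EventuallyEq.rfl) ?_
      filter_upwards [Filter.eventually_ge_atTop 0] with x hx
      rw [← Real.rpow_natCast, ← Real.rpow_mul hx]
      norm_num
    have h3 := h2.bound (show (0 : ℝ) < 1 / A by positivity)
    have h4 : ∀ᶠ x : ℝ in Filter.atTop, A * (1 + Real.log x) ^ (40 : ℕ) ≤ x ^ (1 / 20 : ℝ) := by
      filter_upwards [h3, Filter.eventually_ge_atTop 1] with x hx hx1
      have h5 : (0 : ℝ) < x ^ (1 / 20 : ℝ) := Real.rpow_pos_of_pos (by linarith) _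
      rw [Real.norm_of_nonneg h5.le] at hx
      have h6 : (1 + Real.log x) ^ (40 : ℕ) ≤ 1 / A * x ^ (1 / 20 : ℝ) :=
        (Real.le_norm_self _).trans hx
      calc A * (1 + Real.log x) ^ (40 : ℕ) ≤ A * (1 / A * x ^ (1 / 20 : ℝ)) :=
            mul_le_mul_of_nonneg_left h6 hA0.le
        _ = x ^ (1 / 20 : ℝ) := by field_simp
    obtain ⟨N0, hN0⟩ := Filter.eventually_atTop.mp (tendsto_natCast_atTop_atTop.eventually h4)
    exact ⟨N0, fun N hN => hN0 N hN⟩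
  obtain ⟨C, hC⟩ : ∃ C : ℝ, C = 2 * C1 + 2 * C2 * (1 / c0) ^ 40 + N0 + 4 := ⟨_, rfl⟩
  have hN0' : (0 : ℝ) ≤ N0 := Nat.cast_nonneg _
  have hCpos : 0 < C := by rw [hC]; positivity
  refine ⟨C, 42, hCpos, by norm_num, ?_⟩
  intro N q a y hN hq hy hcopa hSS
  have hNr : (1 : ℝ) ≤ N := by exact_mod_cast hN
  have hyr : (1 : ℝ) ≤ y := by exact_mod_cast hy
  have hNpos : (0 : ℝ) < N := by linarith
  have hlog : 0 ≤ Real.log (N : ℝ) := Real.log_natCast_nonneg N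
  obtain ⟨L, hL⟩ : ∃ L : ℝ, L = 1 + Real.log N := ⟨_, rfl⟩
  have hL1 : 1 ≤ L := by rw [hL]; linarith
  have hL0 : 0 < L := by linarith
  have e42 : L ^ (42 : ℝ) = L ^ (42 : ℕ) := by
    rw [← Real.rpow_natCast]; norm_num
  rw [← hL, e42] at hSS ⊢
  obtain ⟨R, hR⟩ : ∃ R : ℝ, R = ((SS N q a).card : ℝ) := ⟨_, rfl⟩
  have hsq1 : 1 ≤ Real.sqrt N := Real.one_le_sqrt.mpr hNr
  have hRN : R ≤ N := by
    have h1 : (SS N q a).card ≤ N := by
      calc (SS N q a).card ≤ (range N).card := card_filter_le _ _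
        _ = N := card_range N
    rw [hR]; exact_mod_cast h1
  have hL42 : 1 ≤ L ^ 42 := one_le_pow₀ hL1
  have hCN0 : (N0 : ℝ) ≤ C := by
    rw [hC]
    have : 0 ≤ 2 * C1 + 2 * C2 * (1 / c0) ^ 40 := by positivity
    linarith
  rw [← hR] at hSS
  have hNC : (N0 : ℝ) ≤ N := by
    have h1 : C * 1 * 1 ≤ C * L ^ 42 * (Real.sqrt N + y) := by
      gcongr
      linarith
    linarith
  have hbig := hN0 N (by exact_mod_cast hNC)
  rw [← hL] at hbig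
  -- the primes up to P
  obtain ⟨P, hP⟩ : ∃ P : ℕ, P = ⌈Real.sqrt N⌉₊ := ⟨_, rfl⟩
  have hP1 : Real.sqrt N ≤ P := by rw [hP]; exact Nat.le_ceil _
  have hP2 : (P : ℝ) ≤ 2 * Real.sqrt N := by
    have := Nat.ceil_lt_add_one (Real.sqrt_nonneg (N : ℝ))
    rw [hP]; linarith
  have hNP2 : N ≤ P ^ 2 := by
    have h1 : (N : ℝ) ≤ (P : ℝ) ^ 2 := by
      calc (N : ℝ) = Real.sqrt N ^ 2 := (Real.sq_sqrt hNpos.le).symm
        _ ≤ (P : ℝ) ^ 2 := pow_le_pow_left₀ (Real.sqrt_nonneg _) hP1 2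
    exact_mod_cast h1
  have hPN : P ≤ N := by
    rw [hP]
    apply Nat.ceil_le.mpr
    rw [Real.sqrt_le_left (by linarith)]
    nlinarith
  have hP0 : (0 : ℝ) < P := by linarith
  have hPLc := hPL N q a P hN hq hcopa hNP2 hPN (by
    rw [← hR, ← hL]
    calc C1 * L * P ≤ C1 * L * (2 * Real.sqrt N) := by gcongr
      _ = 2 * C1 * L * Real.sqrt N := by ring
      _ ≤ C * L ^ 42 * (Real.sqrt N + y) := by
          have h1 : 2 * C1 ≤ C := by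
            rw [hC]
            have : 0 ≤ 2 * C2 * (1 / c0) ^ 40 := by positivity
            linarith
          have h2 : L ≤ L ^ 42 := le_self_pow₀ hL1 (by norm_num)
          gcongr
          linarith
      _ ≤ R := hSS)
  obtain ⟨D, hD⟩ : ∃ D : ℝ, D = L / c0 := ⟨_, rfl⟩
  have hD1 : 1 ≤ D := by
    rw [hD, le_div_iff₀ hc0]
    linarith
  have hD0 : 0 < D := by linarith
  have hPP : (P : ℝ) ≤ D * (PP q P).card := by
    rw [← hL] at hPLc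
    have h1 : c0 * P / L ≤ (PP q P).card := by
      refine le_trans ?_ hPLc
      gcongr
    calc (P : ℝ) = D * (c0 * P / L) := by rw [hD]; field_simp
      _ ≤ D * (PP q P).card := mul_le_mul_of_nonneg_left h1 hD0.le
  have hDp : ∀ n : ℕ, D ^ n = (1 / c0) ^ n * L ^ n := by
    intro n
    rw [← mul_pow, hD]; congr 1; ring
  have hPK : (N : ℝ) ^ (10 : ℕ) ≤ (P : ℝ) ^ 20 := by
    have h1 : (N : ℝ) ≤ (P : ℝ) ^ 2 := by exact_mod_cast hNP2
    calc (N : ℝ) ^ (10 : ℕ) ≤ ((P : ℝ) ^ 2) ^ 10 := pow_le_pow_left₀ (by positivity) h1 10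
      _ = (P : ℝ) ^ 20 := by ring
  have hNPK : N ^ 10 ≤ P ^ 20 := by exact_mod_cast hPK
  have hN120 : (N : ℝ) ^ (1 / 20 : ℝ) ≤ N := by
    calc (N : ℝ) ^ (1 / 20 : ℝ) ≤ (N : ℝ) ^ (1 : ℝ) :=
          Real.rpow_le_rpow_of_exponent_le hNr (by norm_num)
      _ = N := Real.rpow_one _
  have hC2D : C2 * D ^ 40 ≤ N := by
    rw [hDp]
    calc C2 * ((1 / c0) ^ 40 * L ^ 40) = C2 * (1 / c0) ^ 40 * L ^ 40 := by ring
      _ ≤ A * L ^ 40 := by
          have h1 : C2 * (1 / c0) ^ 40 ≤ A := by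
            rw [hA]
            have h2 : 0 < (1 / c0) ^ 40 := by positivity
            have h3 : C2 ≤ (1 + C2 + C3 * (C4 + 1)) * 2 := by nlinarith [mul_pos hC3 hC4]
            calc C2 * (1 / c0) ^ 40 ≤ ((1 + C2 + C3 * (C4 + 1)) * 2) * (1 / c0) ^ 40 :=
                  mul_le_mul_of_nonneg_right h3 h2.le
              _ = _ := by ring
          gcongr
      _ ≤ (N : ℝ) ^ (1 / 20 : ℝ) := hbig
      _ ≤ N := hN120
  have hPbig : C2 * (N : ℝ) ^ 8 * D ^ (2 * 20) ≤ (P : ℝ) ^ (2 * 20) := by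
    calc C2 * (N : ℝ) ^ 8 * D ^ (2 * 20) = (N : ℝ) ^ 8 * (C2 * D ^ 40) := by ring
      _ ≤ (N : ℝ) ^ 8 * N := by gcongr
      _ = (N : ℝ) ^ 9 * 1 := by ring
      _ ≤ (N : ℝ) ^ 10 * (N : ℝ) ^ 10 := by
          have h1 : (1 : ℝ) ≤ (N : ℝ) ^ 10 := one_le_pow₀ hNr
          have h2 : (N : ℝ) ^ 9 ≤ (N : ℝ) ^ 10 := pow_le_pow_right₀ hNr (by norm_num)
          gcongr
      _ ≤ (P : ℝ) ^ 20 * (P : ℝ) ^ 20 := mul_le_mul hPK hPK (by positivity) (by positivity)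
      _ = (P : ℝ) ^ (2 * 20) := by rw [← pow_add]
  -- the points
  by_contra hcon
  push Not at hcon
  obtain ⟨S, e, c, d, k, w, m, hSS', hhalf, hdat, hdatN⟩ := hAR N q a hN hq hcopa
  have hhalf' : R ≤ 2 * (S.card : ℝ) := by rw [hR]; exact_mod_cast hhalf
  have hCC : 2 * (C2 * (1 / c0) ^ 40) ≤ C := by
    rw [hC]; linarith
  have hcond1 : C2 * D ^ (2 * 20) * y ≤ S.card := by
    have h2 : L ^ 40 ≤ L ^ 42 := pow_le_pow_right₀ hL1 (by norm_num)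
    have h3 : 2 * (C2 * D ^ (2 * 20) * y) ≤ C * L ^ 42 * (Real.sqrt N + y) := by
      calc 2 * (C2 * D ^ (2 * 20) * y) = 2 * (C2 * (1 / c0) ^ 40) * L ^ 40 * y := by
            rw [hDp]; ring
        _ ≤ C * L ^ 42 * (Real.sqrt N + y) := by
            have h4 : (y : ℝ) ≤ Real.sqrt N + y := by linarith
            gcongr
    linarith
  have hcond2 : C2 * D ^ (2 * 20) * (1 + Real.log N) ^ 2 * y ≤ ((NP q y).card : ℝ) ^ 2 := by
    rw [← hL]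
    calc C2 * D ^ (2 * 20) * L ^ 2 * y = (C2 * (1 / c0) ^ 40) * L ^ 42 * y := by
          rw [hDp]; ring
      _ ≤ C * L ^ 42 * y := by
          have h5 : 0 < C2 * (1 / c0) ^ 40 := by positivity
          have h4 : C2 * (1 / c0) ^ 40 ≤ C := by linarith
          gcongr
      _ ≤ ((NP q y).card : ℝ) ^ 2 := hcon.le
  obtain ⟨b, hb1, hb2⟩ := hB N q P y D S e c d k w m hN hq hy hD1 hdat hdatN hPbig hPP
    hcond1 hcond2
  have hSbig : Real.sqrt N ≤ S.card := by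
    have h1 : 2 * Real.sqrt N ≤ C * L ^ 42 * (Real.sqrt N + y) := by
      have h2 : 2 ≤ C := by
        rw [hC]
        have : 0 ≤ 2 * C1 + 2 * C2 * (1 / c0) ^ 40 := by positivity
        linarith
      calc 2 * Real.sqrt N = 2 * 1 * Real.sqrt N := by ring
        _ ≤ C * L ^ 42 * (Real.sqrt N + y) := by
            gcongr
            linarith
    linarith
  have hSpos : (0 : ℝ) < S.card := by linarith
  have hSne : S.Nonempty := by
    rw [← card_pos]; exact_mod_cast hSpos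
  obtain ⟨T, hT1, hT2⟩ := hGT S (PP q P) e (20 + 20) b hSne hdat.sgn hb2 hb1
  have hmain := hM N q P D S e c d k w T hN hNPK hD1 hdat hPP hT1 hT2
  have hNS : N ≤ S.card ^ 2 := by
    have h1 : (N : ℝ) ≤ (S.card : ℝ) ^ 2 := by
      calc (N : ℝ) = Real.sqrt N ^ 2 := (Real.sq_sqrt hNpos.le).symm
        _ ≤ (S.card : ℝ) ^ 2 := pow_le_pow_left₀ (Real.sqrt_nonneg _) hSbig 2
    exact_mod_cast h1
  have hend := hE N S c d k hN hdat.sub hdat.kap hNS hdat.cd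
  obtain ⟨t, ht⟩ : ∃ t : ℝ, t = (S.card : ℝ) := ⟨_, rfl⟩
  rw [← ht] at hmain hend hSpos
  have hu : (N : ℝ) ^ (-(1 / 20) : ℝ) * (N : ℝ) ^ (1 / 20 : ℝ) = 1 := by
    rw [← Real.rpow_add hNpos]; norm_num
  have hu0 : 0 < (N : ℝ) ^ (-(1 / 20) : ℝ) := Real.rpow_pos_of_pos hNpos _
  have hN2 : t ^ 8 / (N : ℝ) ^ 2 ≤ t ^ 8 * (N : ℝ) ^ (-(1 / 20) : ℝ) := by
    rw [div_eq_mul_inv]
    refine mul_le_mul_of_nonneg_left ?_ (by positivity)
    rw [← Real.rpow_natCast, ← Real.rpow_neg hNpos.le]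
    exact Real.rpow_le_rpow_of_exponent_le hNr (by norm_num)
  have h7 : t ^ 8 ≤ C3 * D ^ (20 + 20) * ((C4 + 1) * t ^ 8 * (N : ℝ) ^ (-(1 / 20) : ℝ)) := by
    refine hmain.trans (mul_le_mul_of_nonneg_left ?_ (by positivity))
    calc ((MM S c d).card : ℝ) + t ^ 8 / (N : ℝ) ^ 2
        ≤ C4 * t ^ 8 * (N : ℝ) ^ (-(1 / 20) : ℝ) + t ^ 8 * (N : ℝ) ^ (-(1 / 20) : ℝ) :=
          add_le_add hend hN2
      _ = (C4 + 1) * t ^ 8 * (N : ℝ) ^ (-(1 / 20) : ℝ) := by ring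
  have h8 : 2 * (C3 * D ^ (20 + 20) * (C4 + 1)) ≤ (N : ℝ) ^ (1 / 20 : ℝ) := by
    rw [hDp]
    calc 2 * (C3 * ((1 / c0) ^ (20 + 20) * L ^ (20 + 20)) * (C4 + 1))
        = (C3 * (C4 + 1)) * (1 / c0) ^ 40 * 2 * L ^ 40 := by ring
      _ ≤ A * L ^ 40 := by
          rw [hA]
          have h3 : C3 * (C4 + 1) ≤ 1 + C2 + C3 * (C4 + 1) := by linarith
          gcongr
      _ ≤ (N : ℝ) ^ (1 / 20 : ℝ) := hbig
  have ht8 : 0 < t ^ 8 := by positivity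
  have h9 : 2 * t ^ 8 ≤ t ^ 8 := by
    calc 2 * t ^ 8 ≤ 2 * (C3 * D ^ (20 + 20) *
          ((C4 + 1) * t ^ 8 * (N : ℝ) ^ (-(1 / 20) : ℝ))) := by linarith
      _ = (2 * (C3 * D ^ (20 + 20) * (C4 + 1))) * (t ^ 8 * (N : ℝ) ^ (-(1 / 20) : ℝ)) := by ring
      _ ≤ (N : ℝ) ^ (1 / 20 : ℝ) * (t ^ 8 * (N : ℝ) ^ (-(1 / 20) : ℝ)) :=
          mul_le_mul_of_nonneg_right h8 (by positivity)
      _ = t ^ 8 * ((N : ℝ) ^ (-(1 / 20) : ℝ) * (N : ℝ) ^ (1 / 20 : ℝ)) := by ring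
      _ = t ^ 8 := by rw [hu, mul_one]
  linarith

end Pool.Agent.Helper30.RD8
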