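import Pool.Agent.Helper19.RD.Stmts8

set_option autoImplicit false

namespace Pool.Agent.Helper30.RD8

open Finset Pool.Agent.Helper18.RD Pool.Agent.Helper19.RD

/-- Abel summation with the weights `1 / r` -/
lemma perw_abel (f : ℕ → ℝ) (M : ℝ) (hM : ∀ Z : ℕ, |∑ r ∈ Icc 1 Z, f r| ≤ M) (A k : ℕ) :
    |∑ r ∈ Icc (A + 1) (A + k), f r / r - (∑ r ∈ Icc 1 (A + k), f r) / ((A : ℝ) + k + 1) +
      (∑ r ∈ Icc 1 A, f r) / ((A : ℝ) + 1)| ≤ M * (1 / ((A : ℝ) + 1) - 1 / ((A : ℝ) + k + 1)) := by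
  induction k with
  | zero =>
    simp
  | succ k ih =>
    have hA : (0 : ℝ) ≤ A := Nat.cast_nonneg _
    have hk : (0 : ℝ) ≤ k := Nat.cast_nonneg _
    have e1 : ∑ r ∈ Icc (A + 1) (A + (k + 1)), f r / r =
        ∑ r ∈ Icc (A + 1) (A + k), f r / r + f (A + k + 1) / ((A : ℝ) + k + 1) := by
      rw [show A + (k + 1) = (A + k) + 1 by ring, sum_Icc_succ_top (by omega)]
      push_cast
      ring
    have e2 : ∑ r ∈ Icc 1 (A + (k + 1)), f r = ∑ r ∈ Icc 1 (A + k), f r + f (A + k + 1) := by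
      rw [show A + (k + 1) = (A + k) + 1 by ring, sum_Icc_succ_top (by omega)]
    have h1 := hM (A + (k + 1))
    rw [e2] at h1
    rw [e1, e2]
    obtain ⟨G, hG⟩ : ∃ G : ℝ, G = ∑ r ∈ Icc (A + 1) (A + k), f r / r := ⟨_, rfl⟩
    obtain ⟨F, hF⟩ : ∃ F : ℝ, F = ∑ r ∈ Icc 1 (A + k), f r := ⟨_, rfl⟩
    obtain ⟨F0, hF0⟩ : ∃ F0 : ℝ, F0 = (∑ r ∈ Icc 1 A, f r) / ((A : ℝ) + 1) := ⟨_, rfl⟩
    rw [← hG, ← hF, ← hF0] at ih
    rw [← hF] at h1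
    rw [← hG, ← hF, ← hF0]
    push_cast
    obtain ⟨x, hx⟩ : ∃ x : ℝ, x = (A : ℝ) + k + 1 := ⟨_, rfl⟩
    have hx0 : 0 < x := by rw [hx]; positivity
    have ex : (A : ℝ) + (k + 1) + 1 = x + 1 := by rw [hx]; ring
    rw [← hx] at ih ⊢
    rw [ex]
    obtain ⟨u, hu⟩ : ∃ u : ℝ, u = f (A + k + 1) := ⟨_, rfl⟩
    rw [← hu] at h1 ⊢
    have e3 : G + u / x - (F + u) / (x + 1) + F0 =
        (G - F / x + F0) + (F + u) * (1 / x - 1 / (x + 1)) := by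
      field_simp
      ring
    have h2 : 0 ≤ 1 / x - 1 / (x + 1) := by
      rw [sub_nonneg]
      exact one_div_le_one_div_of_le hx0 (by linarith)
    rw [e3]
    calc |(G - F / x + F0) + (F + u) * (1 / x - 1 / (x + 1))|
        ≤ |G - F / x + F0| + |(F + u) * (1 / x - 1 / (x + 1))| := abs_add_le _ _
      _ ≤ M * (1 / ((A : ℝ) + 1) - 1 / x) + M * (1 / x - 1 / (x + 1)) := by
          refine add_le_add ih ?_
          rw [abs_mul, abs_of_nonneg h2]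
          exact mul_le_mul_of_nonneg_right h1 h2
      _ = M * (1 / ((A : ℝ) + 1) - 1 / (x + 1)) := by ring

theorem st_PERW (hP : ST_PER) : ST_PERW := by
  intro n hn hsq A B hA
  obtain ⟨A', rfl⟩ : ∃ A', A = A' + 1 := ⟨A - 1, by omega⟩
  have hn0 : (0 : ℝ) ≤ |(n : ℝ)| := abs_nonneg _
  rcases Nat.lt_or_ge B (A' + 1) with hB | hB
  · rw [Icc_eq_empty (by omega)]
    simp only [filter_empty, sum_empty, abs_zero]
    positivity
  obtain ⟨k, rfl⟩ : ∃ k, B = A' + k := ⟨B - A', by omega⟩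
  obtain ⟨f, hf⟩ : ∃ f : ℕ → ℝ, f = fun r => if Odd r then (jacobiSym n r : ℝ) else 0 := ⟨_, rfl⟩
  have e1 : ∀ Z : ℕ, ∑ r ∈ Icc 1 Z, f r =
      ((∑ r ∈ (Icc 1 Z).filter (fun r => Odd r), jacobiSym n r : ℤ) : ℝ) := by
    intro Z
    rw [sum_filter, hf]
    push_cast
    rfl
  have hM : ∀ Z : ℕ, |∑ r ∈ Icc 1 Z, f r| ≤ 4 * |(n : ℝ)| := by
    intro Z
    rw [e1]
    exact_mod_cast hP n hn hsq Z
  have e2 : ∑ r ∈ (Icc (A' + 1) (A' + k)).filter (fun r => Odd r), (jacobiSym n r : ℝ) / r =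
      ∑ r ∈ Icc (A' + 1) (A' + k), f r / r := by
    rw [sum_filter]
    refine sum_congr rfl fun r _ => ?_
    rw [hf]
    by_cases h : Odd r
    · simp [h]
    · simp [h]
  have h := perw_abel f _ hM A' k
  have h1 := hM (A' + k)
  have h2 := hM A'
  rw [e2]
  obtain ⟨G, hG⟩ : ∃ G : ℝ, G = ∑ r ∈ Icc (A' + 1) (A' + k), f r / r := ⟨_, rfl⟩
  obtain ⟨F, hF⟩ : ∃ F : ℝ, F = ∑ r ∈ Icc 1 (A' + k), f r := ⟨_, rfl⟩
  obtain ⟨F0, hF0⟩ : ∃ F0 : ℝ, F0 = ∑ r ∈ Icc 1 A', f r := ⟨_, rfl⟩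
  rw [← hG, ← hF, ← hF0] at h
  rw [← hF] at h1
  rw [← hF0] at h2
  rw [← hG]
  push_cast
  obtain ⟨x, hx⟩ : ∃ x : ℝ, x = (A' : ℝ) + k + 1 := ⟨_, rfl⟩
  obtain ⟨z, hz⟩ : ∃ z : ℝ, z = (A' : ℝ) + 1 := ⟨_, rfl⟩
  have hx0 : 0 < x := by rw [hx]; positivity
  have hz0 : 0 < z := by rw [hz]; positivity
  rw [← hx, ← hz] at h
  rw [← hz]
  have h3 : |F / x| ≤ 4 * |(n : ℝ)| / x := by
    rw [abs_div, abs_of_pos hx0]
    exact div_le_div_of_nonneg_right h1 hx0.le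
  have h4 : |F0 / z| ≤ 4 * |(n : ℝ)| / z := by
    rw [abs_div, abs_of_pos hz0]
    exact div_le_div_of_nonneg_right h2 hz0.le
  calc |G| = |(G - F / x + F0 / z) + (F / x + -(F0 / z))| := by congr 1; ring
    _ ≤ |G - F / x + F0 / z| + |F / x + -(F0 / z)| := abs_add_le _ _
    _ ≤ 4 * |(n : ℝ)| * (1 / z - 1 / x) + (4 * |(n : ℝ)| / x + 4 * |(n : ℝ)| / z) := by
        refine add_le_add h ((abs_add_le _ _).trans ?_)
        rw [abs_neg]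
        exact add_le_add h3 h4
    _ = 8 * |(n : ℝ)| / z := by field_simp; ring

end Pool.Agent.Helper30.RD8
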